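import Pool.Agent.TH528.MC.Main

/-!
# Cuts of graphs without `C_{2k}` and of small factorization norm

Let `G` be a graph with `m` edges without `C_{2k}` and let its adjacency matrix be `(⟨u i, v j⟩)` with real vectors of squared
length at most `w`, that is, `γ₂ ≤ w`.  Then `G` has a bipartite subgraph with at least `m / 2 + m / (4096 k ^ (3 / 2) w)`
edges.  Hence if all bipartite subgraphs of `G` have at most `m / 2 + C m ^ ((2 k + 1) / (2 k + 2))` edges then the
factorization norm is at least `m ^ (1 / (2 k + 2)) / (4096 k ^ (3 / 2) C)`.  The same holds for every real matrix which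
vanishes outside the edges and has entries of absolute value between `1` and `β` at the edges, with `w` replaced by `w β ^ 2`.

Proof.  Every set `U` of vertices spans at most `16 (k - 1) w ^ 2 β ^ 4 |U|` edges (a resolvent of the weighted matrix as test
matrix, and a count of closed walks of length four, see `TH528/GN`).  So `∑ √d ≥ m / (16 √k w β ^ 2)`.  The cut theorem of
Alon, Krivelevich and Sudakov, `m / 2 + c ∑ √d`, is proved here with `c = 1 / (256 k)`: round the vector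
`x v = (s v - δ T (∑_{u ~ v} s u / √d v)) / 2`, where `s` is a random sign vector and `T` is the truncation at `±1`.
-/

set_option autoImplicit false

namespace Pool.Agent.Results.MP_4a0cc5_co.SmallNormLargeCut

open Finset

/-- The vectors `u i`, `v j` have squared length at most `w`, the scalar product of `u i` and `v j` is zero if `i` and `j` are
not adjacent (in particular for `i = j`), and its absolute value is between `1` and `β` if they are adjacent. -/
def Represents {n L : ℕ} (G : SimpleGraph (Fin n)) (w β : ℝ) (u v : Fin n → Fin L → ℝ) : Prop :=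
  (∀ i, ∑ l, u i l ^ 2 ≤ w) ∧ (∀ j, ∑ l, v j l ^ 2 ≤ w) ∧
    (∀ i j, ¬ G.Adj i j → ∑ l, u i l * v j l = 0) ∧
    (∀ i j, G.Adj i j → 1 ≤ |∑ l, u i l * v j l| ∧ |∑ l, u i l * v j l| ≤ β)

/-- **Cuts of graphs without `C_{2k}` and of small factorization norm.** -/
theorem result : ∀ k : ℕ, 2 ≤ k → ∀ (n L : ℕ) (G : SimpleGraph (Fin n)) [DecidableRel G.Adj] (w β : ℝ)
    (u v : Fin n → Fin L → ℝ), Represents G w β u v → (SimpleGraph.cycleGraph (2 * k)).Free G →
    (∃ A : Finset (Fin n), (#G.edgeFinset : ℝ) / 2 + (#G.edgeFinset : ℝ) / (4096 * (k * Real.sqrt k) * (w * β ^ 2)) ≤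
      #{p ∈ A ×ˢ Aᶜ | G.Adj p.1 p.2}) ∧
    (∀ C : ℝ, 0 < C → 1 ≤ #G.edgeFinset →
      (∀ A : Finset (Fin n), (#{p ∈ A ×ˢ Aᶜ | G.Adj p.1 p.2} : ℝ) ≤
        (#G.edgeFinset : ℝ) / 2 + C * (#G.edgeFinset : ℝ) ^ ((2 * (k : ℝ) + 1) / (2 * k + 2))) →
      (#G.edgeFinset : ℝ) ^ (1 / (2 * (k : ℝ) + 2)) / (4096 * (k * Real.sqrt k) * C) ≤ w * β ^ 2) := by
  intro k hk n L G _ w β u v h hfree
  have hh := h
  obtain ⟨hu, hv, h0, h1⟩ := h
  obtain ⟨A, hA⟩ := Pool.Agent.TH528.MC.cut_of_represents G hk hfree u v β w h0 h1 hu hv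
  have hA' : (#G.edgeFinset : ℝ) / 2 + (#G.edgeFinset : ℝ) / (4096 * (k * Real.sqrt k) * (w * β ^ 2)) ≤
      (#{p ∈ A ×ˢ Aᶜ | G.Adj p.1 p.2} : ℝ) := hA
  refine ⟨⟨A, hA'⟩, ?_⟩
  intro C hC hm hcut
  have hm0 : (0 : ℝ) < #G.edgeFinset := by exact_mod_cast hm
  have hk1 : (2 : ℝ) ≤ k := by exact_mod_cast hk
  have hk0 : 0 < Real.sqrt k := Real.sqrt_pos.2 (by linarith)
  obtain ⟨e, he⟩ := card_pos.1 hm
  induction e using Sym2.ind with
  | _ a b =>
  rw [SimpleGraph.mem_edgeFinset, SimpleGraph.mem_edgeSet] at he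
  have hβ : 1 ≤ β := (h1 _ _ he).1.trans (h1 _ _ he).2
  have hw0 : 0 ≤ w := (sum_nonneg fun l _ => sq_nonneg _).trans (hu a)
  have hw : 0 < w := by
    rcases hw0.lt_or_eq with h | h
    · exact h
    · exfalso
      have h2 : (∑ l, u a l * v b l) ^ 2 ≤ w * w := by
        calc (∑ l, u a l * v b l) ^ 2 ≤ (∑ l, u a l ^ 2) * (∑ l, v b l ^ 2) := sum_mul_sq_le_sq_mul_sq _ _ _
          _ ≤ w * w := mul_le_mul (hu _) (hv _) (sum_nonneg fun l _ => sq_nonneg _) hw0
      have h3 : 1 ≤ (∑ l, u a l * v b l) ^ 2 := by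
        rw [← sq_abs]
        have := (h1 _ _ he).1
        nlinarith
      rw [← h] at h2
      linarith
  set m : ℝ := (#G.edgeFinset : ℝ) with hmdef
  have h2 := hcut A
  have hW : 0 < w * β ^ 2 := by positivity
  have h3 : m / (4096 * (k * Real.sqrt k) * (w * β ^ 2)) ≤ C * m ^ ((2 * (k : ℝ) + 1) / (2 * k + 2)) := by linarith
  have h4 : m = m ^ ((2 * (k : ℝ) + 1) / (2 * k + 2)) * m ^ (1 / (2 * (k : ℝ) + 2)) := by
    rw [← Real.rpow_add hm0]
    have : (2 * (k : ℝ) + 1) / (2 * k + 2) + 1 / (2 * (k : ℝ) + 2) = 1 := by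
      field_simp
      ring
    rw [this, Real.rpow_one]
  have hp : 0 < m ^ ((2 * (k : ℝ) + 1) / (2 * k + 2)) := Real.rpow_pos_of_pos hm0 _
  rw [div_le_iff₀ (by positivity)] at h3
  rw [div_le_iff₀ (by positivity)]
  have h5 : m ^ ((2 * (k : ℝ) + 1) / (2 * k + 2)) * m ^ (1 / (2 * (k : ℝ) + 2)) ≤
      m ^ ((2 * (k : ℝ) + 1) / (2 * k + 2)) * (w * β ^ 2 * (4096 * (k * Real.sqrt k) * C)) := by
    rw [← h4]
    refine h3.trans (le_of_eq ?_)
    ring
  exact le_of_mul_le_mul_left h5 hp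

end Pool.Agent.Results.MP_4a0cc5_co.SmallNormLargeCut
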