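import Pool.Agent.TH528.MC.Dense

/-!
# Graphs without `C_{2k}` whose cuts are as small as possible contain dense subgraphs

Let `G` be a graph with `m ≥ 1` edges without `C_{2k}` all of whose bipartite subgraphs have at most
`m / 2 + C m ^ ((2 k + 1) / (2 k + 2))` edges.  Then `G` has a subgraph with `N ≤ 131072 k ^ 2 C ^ 2 m ^ (k / (k + 1))` vertices
and at least `m / 2` edges, that is, with `c N ^ (1 + 1 / k)` edges.  Hence if the lower bound
`m / 2 + c m ^ ((2 k + 1) / (2 k + 2))` of Alon, Krivelevich and Sudakov for the maximum cut is tight for `C_{2k}`, then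
`ex(N, C_{2k}) ≥ c N ^ (1 + 1 / k)` for infinitely many `N`: for `k = 4` and `k ≥ 6` the question on cuts cannot be answered
with yes without dense graphs without `C_{2k}`.

Proof.  There is a cut with `m / 2 + (1 / (256 k)) ∑ √d` edges (round the vector
`x v = (s v - δ T (∑_{u ~ v} s u / √d v)) / 2`, where `s` is a random sign vector and `T` is the truncation at `±1`), so
`∑ √d ≤ S = 256 k C m ^ ((2 k + 1) / (2 k + 2))`.  The vertices with `√d > r = m / (2 S)` are at most `S / r`, and the other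
vertices meet at most `r S = m / 2` edges.
-/

set_option autoImplicit false

namespace Pool.Agent.Results.MP_4a0cc5_co.TightImpliesDense

open Finset SimpleGraph

/-- All bipartite subgraphs of `G` have at most `m / 2 + C m ^ ((2 k + 1) / (2 k + 2))` edges, `m` the number of edges. -/
def SmallCuts (k : ℕ) (C : ℝ) {n : ℕ} (G : SimpleGraph (Fin n)) [DecidableRel G.Adj] : Prop :=
  ∀ A : Finset (Fin n), (#{p ∈ A ×ˢ Aᶜ | G.Adj p.1 p.2} : ℝ) ≤
    (#G.edgeFinset : ℝ) / 2 + C * (#G.edgeFinset : ℝ) ^ ((2 * (k : ℝ) + 1) / (2 * k + 2))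

theorem first (k : ℕ) (hk : 2 ≤ k) (C : ℝ) (hC : 0 < C) (n : ℕ) (G : SimpleGraph (Fin n)) [DecidableRel G.Adj]
    (hfree : (cycleGraph (2 * k)).Free G) (hm : 1 ≤ #G.edgeFinset) (hcut : SmallCuts k C G) :
    ∃ (N : ℕ) (G' : SimpleGraph (Fin N)) (_ : DecidableRel G'.Adj), G' ⊑ G ∧
      (N : ℝ) ≤ 131072 * k ^ 2 * C ^ 2 * (#G.edgeFinset : ℝ) ^ ((k : ℝ) / (k + 1)) ∧
      (#G.edgeFinset : ℝ) / 2 ≤ #G'.edgeFinset := by
  obtain ⟨A, hA⟩ := Pool.Agent.TH528.MC.cut_ge G hk hfree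
  have hA' : (#G.edgeFinset : ℝ) / 2 + 1 / (256 * k) * ∑ v, Real.sqrt (G.degree v) ≤
      (#{p ∈ A ×ˢ Aᶜ | G.Adj p.1 p.2} : ℝ) := hA
  have hcA := hcut A
  set m : ℝ := (#G.edgeFinset : ℝ) with hmdef
  have hm0 : 0 < m := by
    rw [hmdef]
    exact_mod_cast hm
  have hk1 : (2 : ℝ) ≤ k := by exact_mod_cast hk
  set a : ℝ := m ^ ((2 * (k : ℝ) + 1) / (2 * k + 2)) with ha
  set b : ℝ := m ^ (1 / (2 * (k : ℝ) + 2)) with hb
  have ha0 : 0 < a := Real.rpow_pos_of_pos hm0 _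
  have hb0 : 0 < b := Real.rpow_pos_of_pos hm0 _
  have hab : a * b = m := by
    rw [ha, hb, ← Real.rpow_add hm0]
    have : (2 * (k : ℝ) + 1) / (2 * k + 2) + 1 / (2 * (k : ℝ) + 2) = 1 := by
      field_simp
      ring
    rw [this, Real.rpow_one]
  have hak : a = b * m ^ ((k : ℝ) / (k + 1)) := by
    rw [ha, hb, ← Real.rpow_add hm0]
    congr 1
    field_simp
    ring
  have hS : ∑ v, Real.sqrt (G.degree v) ≤ 256 * k * C * a := by
    have h1 : 1 / (256 * (k : ℝ)) * ∑ v, Real.sqrt (G.degree v) ≤ C * a := by linarith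
    rw [div_mul_eq_mul_div, one_mul, div_le_iff₀ (by positivity)] at h1
    refine h1.trans (le_of_eq ?_)
    ring
  obtain ⟨U, hU1, hU2⟩ := Pool.Agent.TH528.MC.dense_of_sum_sqrt G (256 * k * C * a) (b / (512 * k * C))
    (by positivity) hS (by
      rw [← hmdef, ← hab]
      apply le_of_eq
      field_simp
      norm_num)
  obtain ⟨G', inst, hG', hedge⟩ := Pool.Agent.TH528.MC.exists_sub G U
  refine ⟨#U, G', inst, hG', ?_, ?_⟩
  · rw [div_mul_eq_mul_div, div_le_iff₀ (by positivity), hak] at hU1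
    have h2 : b * (#U : ℝ) ≤ b * (131072 * k ^ 2 * C ^ 2 * m ^ ((k : ℝ) / (k + 1))) := by
      refine hU1.trans (le_of_eq ?_)
      ring
    exact le_of_mul_le_mul_left h2 hb0
  · linarith

/-- **Small cuts imply dense subgraphs.** -/
theorem result :
    (∀ k : ℕ, 2 ≤ k → ∀ C : ℝ, 0 < C → ∀ (n : ℕ) (G : SimpleGraph (Fin n)) [DecidableRel G.Adj],
      (cycleGraph (2 * k)).Free G → 1 ≤ #G.edgeFinset → SmallCuts k C G →
      ∃ (N : ℕ) (G' : SimpleGraph (Fin N)) (_ : DecidableRel G'.Adj), G' ⊑ G ∧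
        (N : ℝ) ≤ 131072 * k ^ 2 * C ^ 2 * (#G.edgeFinset : ℝ) ^ ((k : ℝ) / (k + 1)) ∧
        (#G.edgeFinset : ℝ) / 2 ≤ #G'.edgeFinset) ∧
    (∀ k : ℕ, 2 ≤ k → (∃ C : ℝ, 0 < C ∧ ∀ m₀ : ℕ, ∃ (n : ℕ) (G : SimpleGraph (Fin n)) (_ : DecidableRel G.Adj),
        (cycleGraph (2 * k)).Free G ∧ m₀ ≤ #G.edgeFinset ∧ SmallCuts k C G) →
      ∃ c : ℝ, 0 < c ∧ ∀ N₀ : ℕ, ∃ N : ℕ, N₀ ≤ N ∧ ∃ (G : SimpleGraph (Fin N)) (_ : DecidableRel G.Adj),
        (cycleGraph (2 * k)).Free G ∧ c * (N : ℝ) ^ (1 + 1 / (k : ℝ)) ≤ #G.edgeFinset) := by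
  refine ⟨fun k hk C hC n G _ hfree hm hcut => first k hk C hC n G hfree hm hcut, ?_⟩
  rintro k hk ⟨C, hC, h⟩
  have hk1 : (2 : ℝ) ≤ k := by exact_mod_cast hk
  have hk0 : (0 : ℝ) < k := by linarith
  set E : ℝ := 131072 * k ^ 2 * C ^ 2 with hE
  have hE0 : 0 < E := by positivity
  refine ⟨1 / (2 * E ^ (1 + 1 / (k : ℝ))), by positivity, ?_⟩
  intro N₀
  obtain ⟨n, G, inst, hfree, hm₀, hcut⟩ := h (N₀ ^ 2 + 1)
  have hm : 1 ≤ #G.edgeFinset := by omega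
  obtain ⟨N, G', inst', hG', hN, hedge⟩ := first k hk C hC n G hfree hm hcut
  refine ⟨N, ?_, G', inst', fun hc => hfree (hc.trans hG'), ?_⟩
  · -- `m / 2 ≤ N ^ 2 / 2`
    have h1 : #G'.edgeFinset ≤ N.choose 2 := by
      have := G'.card_edgeFinset_le_card_choose_two
      rwa [Fintype.card_fin] at this
    have h2 : (N.choose 2 : ℝ) ≤ (N : ℝ) ^ 2 / 2 := by
      rw [Nat.cast_choose_two]
      have : (0 : ℝ) ≤ N := Nat.cast_nonneg _
      nlinarith
    have h3 : (#G'.edgeFinset : ℝ) ≤ (N : ℝ) ^ 2 / 2 := le_trans (by exact_mod_cast h1) h2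
    have h4 : ((N₀ ^ 2 + 1 : ℕ) : ℝ) ≤ #G.edgeFinset := by exact_mod_cast hm₀
    have h5 : ((N₀ : ℝ)) ^ 2 + 1 ≤ (N : ℝ) ^ 2 := by
      push_cast at h4
      linarith
    have h6 : N₀ ^ 2 + 1 ≤ N ^ 2 := by exact_mod_cast h5
    by_contra hcon
    push Not at hcon
    have : N ^ 2 ≤ N₀ ^ 2 := Nat.pow_le_pow_left hcon.le 2
    omega
  · set m : ℝ := (#G.edgeFinset : ℝ) with hmdef
    have hm0 : 0 < m := by
      rw [hmdef]
      exact_mod_cast hm
    have h1 : (N : ℝ) ^ (1 + 1 / (k : ℝ)) ≤ E ^ (1 + 1 / (k : ℝ)) * m := by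
      calc (N : ℝ) ^ (1 + 1 / (k : ℝ)) ≤ (E * m ^ ((k : ℝ) / (k + 1))) ^ (1 + 1 / (k : ℝ)) :=
            Real.rpow_le_rpow (Nat.cast_nonneg _) hN (by positivity)
        _ = E ^ (1 + 1 / (k : ℝ)) * m := by
            rw [Real.mul_rpow hE0.le (Real.rpow_nonneg hm0.le _), ← Real.rpow_mul hm0.le]
            have : (k : ℝ) / (k + 1) * (1 + 1 / k) = 1 := by
              field_simp
            rw [this, Real.rpow_one]
    have hEp : 0 < E ^ (1 + 1 / (k : ℝ)) := by positivity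
    calc 1 / (2 * E ^ (1 + 1 / (k : ℝ))) * (N : ℝ) ^ (1 + 1 / (k : ℝ))
        ≤ 1 / (2 * E ^ (1 + 1 / (k : ℝ))) * (E ^ (1 + 1 / (k : ℝ)) * m) :=
          mul_le_mul_of_nonneg_left h1 (by positivity)
      _ = m / 2 := by field_simp
      _ ≤ _ := hedge

end Pool.Agent.Results.MP_4a0cc5_co.TightImpliesDense
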